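import Pool.Agent.MPd42a57.Defs
import Pool.Agent.MPd42a57.ExactOrder

open Pool.Agent.MPd42a57

universe u

/-- The exact order of `γ(m, lam)` for every `lam ≥ 12` is `m ^ (-(k-1)/(2(k+1)))`, where
`k ≈ 2.1523` solves `k ^ ((2k+1)/(k+1)) = k^2 - 1`; the exponent is `≈ 0.1828`. The upper bound holds
for every real `lam`. The constants do not depend on `H` and `lam`. -/
theorem Pool.Agent.Results.MP_d42a57_an.ExactOrderLargeLambda.result :
    ∃ k : ℝ, 99/46 < k ∧ k < 127/59 ∧ k ^ ((2*k+1)/(k+1)) = k^2 - 1 ∧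
      ∃ c C : ℝ, 0 < c ∧ 0 < C ∧
        (∀ (H : Type u) [NormedAddCommGroup H] [InnerProductSpace ℝ H] [CompleteSpace H],
          ∀ lam : ℝ, ∀ m : ℕ, 1 ≤ m → gamma H m lam ≤ C * (m:ℝ) ^ (-((k-1)/(2*(k+1))))) ∧
        (∀ (H : Type u) [NormedAddCommGroup H] [InnerProductSpace ℝ H] [CompleteSpace H],
          ¬ FiniteDimensional ℝ H → ∀ lam : ℝ, 12 ≤ lam → ∀ m : ℕ, 1 ≤ m →
            c * (m:ℝ) ^ (-((k-1)/(2*(k+1)))) ≤ gamma H m lam) :=
  Pool.Agent.MPd42a57.Exact.exact_order
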