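import Pool.Agent.H40d42.Final

open Pool.Agent.MPd42a57

universe u

/-- For linearly independent `lam`-quasi-orthogonal dictionaries the exact order of the pure greedy error
on `A_1(D)` is `m ^ (-1/2)` for every `1 ≤ lam < 2`. -/
theorem Pool.Agent.Results.MP_d42a57_an.IndependentDictionaries.result :
    ∀ lam : ℝ, 1 ≤ lam → lam < 2 → ∃ C : ℝ, 0 < C ∧
      ∀ (H : Type u) [NormedAddCommGroup H] [InnerProductSpace ℝ H] [CompleteSpace H] (m : ℕ),
        1 ≤ m → Pool.Agent.H40d42.gammaInd H m lam ≤ C * (m:ℝ) ^ (-(1/2) : ℝ) ∧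
          (¬ FiniteDimensional ℝ H →
            1/2 * (m:ℝ) ^ (-(1/2) : ℝ) ≤ Pool.Agent.H40d42.gammaInd H m lam) :=
  Pool.Agent.H40d42.main.1
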