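import Pool.Agent.H40d42.Final

open Pool.Agent.MPd42a57

universe u

/-- For linearly independent `lam`-quasi-orthogonal dictionaries with `lam ≥ 2` the pure greedy error on `A_1(D)`
is `O(m ^ (-s))` for every `s < 2/lam - 1/2`. -/
theorem Pool.Agent.Results.MP_d42a57_an.IndependentRate.result :
    ∀ lam : ℝ, 2 ≤ lam → ∀ s : ℝ, 0 < s → s < 2/lam - 1/2 → ∃ C : ℝ, 0 < C ∧
      ∀ (H : Type u) [NormedAddCommGroup H] [InnerProductSpace ℝ H] [CompleteSpace H] (m : ℕ),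
        1 ≤ m → Pool.Agent.H40d42.gammaInd H m lam ≤ C * (m:ℝ) ^ (-s) :=
  Pool.Agent.H40d42.main.2
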