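import Pool.Agent.MPd42a57.Defs
import Pool.Agent.MPd42a57.Main

open Pool.Agent.MPd42a57

universe u

/-- For `lam ≥ 8` the quantity `γ(m, lam)` is at least `(3/20) m ^ (-(1/P - 1/2))`, where
`(3/4)^P + (√3/4)^P = 1`, `27/20 < P < 2`; the exponent `1/P - 1/2` is less than `13/54`. -/
theorem Pool.Agent.Results.MP_d42a57_an.LowerBoundLambdaEight.result :
    ∃ P : ℝ, 27/20 < P ∧ P < 2 ∧ (3/4 : ℝ) ^ P + (Real.sqrt 3 / 4) ^ P = 1 ∧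
      ∀ (H : Type u) [NormedAddCommGroup H] [InnerProductSpace ℝ H] [CompleteSpace H],
        ¬ FiniteDimensional ℝ H → ∀ lam : ℝ, 8 ≤ lam → ∀ m : ℕ, 1 ≤ m →
          (3/20 : ℝ) * (m:ℝ) ^ (-(1/P - 1/2) : ℝ) ≤ gamma H m lam :=
  Pool.Agent.MPd42a57.main
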